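import Mathlib

/-!
# A hypercyclic composition operator on the little Lipschitz space of a tree whose symbol has
an infinite backward orbit
-/

namespace Pool.Agent.Results.MP_349e68_an.BackwardOrbit

open Finset

/-- A rooted tree: an infinite, locally finite tree with a root; only the root may have degree
one. -/
structure RootedTree (V : Type) where
  /-- the underlying graph -/
  G : SimpleGraph V
  /-- the root -/
  root : V
  isTree : G.IsTree
  locallyFinite : ∀ v, (G.neighborSet v).Finite
  infinite : Infinite V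
  degree_one : ∀ v, (G.neighborSet v).ncard = 1 → v = root

variable {V : Type}

/-- `w` is the parent of `v`: the neighbour of `v` that is one step closer to the root. -/
def IsParent (T : RootedTree V) (w v : V) : Prop :=
  T.G.Adj w v ∧ T.G.dist T.root v = T.G.dist T.root w + 1

/-- Membership in the little Lipschitz space: `|f(v) - f(parent of v)| → 0` as `|v| → ∞`. -/
def LittleLip (T : RootedTree V) (f : V → ℂ) : Prop :=
  ∀ ε : ℝ, 0 < ε → ∃ N : ℕ, ∀ w v, IsParent T w v → N ≤ T.G.dist T.root v → ‖f v - f w‖ < ε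

/-- The norm of the little Lipschitz space. -/
noncomputable def lipNorm (T : RootedTree V) (f : V → ℂ) : ℝ :=
  max ‖f T.root‖ (sSup {r : ℝ | ∃ w v, IsParent T w v ∧ r = ‖f v - f w‖})

/-- `C_φ` maps the little Lipschitz space boundedly into itself. -/
def IsCompositionOperator (T : RootedTree V) (φ : V → V) : Prop :=
  (∀ f, LittleLip T f → LittleLip T (f ∘ φ)) ∧
    ∃ C : ℝ, ∀ f, LittleLip T f → lipNorm T (f ∘ φ) ≤ C * lipNorm T f

/-- `lam • C_φ` is hypercyclic: some `f` in the space has a dense orbit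
(`(lam C_φ)^n f = lam^n f ∘ φ^n`). -/
def Hypercyclic (T : RootedTree V) (φ : V → V) (lam : ℂ) : Prop :=
  ∃ f, LittleLip T f ∧ ∀ g, LittleLip T g → ∀ ε : ℝ, 0 < ε →
    ∃ n : ℕ, lipNorm T (fun v => lam ^ n * f (φ^[n] v) - g v) < ε

/-! ### The tree -/

/-- Vertices: `(k, [])` is the `k`-th vertex of the spine, and a ternary tree hangs at it. -/
abbrev W := ℕ × List (Fin 3)

/-- The root. -/
abbrev o : W := (0, [])

/-- The parent function. -/
def par (v : W) : W := if v.2 = [] then (v.1 - 1, []) else (v.1, v.2.dropLast)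

/-- The height. -/
def ht (v : W) : ℕ := v.1 + v.2.length

theorem par_nil (k : ℕ) : par (k, []) = (k - 1, []) := by simp [par]

theorem par_concat (k : ℕ) (w : List (Fin 3)) (a : Fin 3) : par (k, w ++ [a]) = (k, w) := by
  simp [par]

theorem cases_W (v : W) : v = o ∨ (∃ k, v = (k + 1, [])) ∨ ∃ k w a, v = (k, w ++ [a]) := by
  rcases v with ⟨k, w⟩
  rcases List.eq_nil_or_concat w with h | ⟨w', a, h⟩
  · subst h
    cases k with
    | zero => exact Or.inl rfl
    | succ k => exact Or.inr (Or.inl ⟨k, rfl⟩)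
  · right; right
    exact ⟨k, w', a, by rw [h, List.concat_eq_append]⟩

theorem par_o : par o = o := rfl

theorem ht_par (v : W) (h : v ≠ o) : ht (par v) + 1 = ht v := by
  rcases cases_W v with h1 | ⟨k, h1⟩ | ⟨k, w, a, h1⟩
  · exact absurd h1 h
  · subst h1; rw [par_nil]; simp [ht]
  · subst h1; rw [par_concat]; simp [ht]; omega

theorem ht_par_le (v : W) : ht (par v) ≤ ht v := by
  by_cases h : v = o
  · subst h; exact le_rfl
  · have := ht_par v h; omega

theorem ne_par {v : W} (h : v ≠ o) : v ≠ par v := by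
  intro he
  have := ht_par v h
  rw [← he] at this
  omega

/-- The graph. -/
def graph : SimpleGraph W where
  Adj u v := u ≠ v ∧ (par u = v ∨ par v = u)
  symm := ⟨fun _ _ h => ⟨h.1.symm, h.2.symm⟩⟩
  loopless := ⟨fun _ h => h.1 rfl⟩

theorem graph_adj_par {v : W} (h : v ≠ o) : graph.Adj v (par v) :=
  ⟨ne_par h, Or.inl rfl⟩

theorem graph_reach (n : ℕ) : ∀ v : W, ht v = n → graph.Reachable o v := by
  induction n using Nat.strong_induction_on with
  | _ n ih =>
    intro v hv
    by_cases h : v = o
    · subst h; exact SimpleGraph.Reachable.refl _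
    · have h1 := ht_par v h
      exact (ih (ht (par v)) (by omega) (par v) rfl).trans (graph_adj_par h).reachable.symm

theorem graph_connected : graph.Connected := by
  rw [SimpleGraph.connected_iff_exists_forall_reachable]
  exact ⟨o, fun v => graph_reach _ v rfl⟩

theorem graph_acyclic : graph.IsAcyclic := by
  rw [SimpleGraph.isAcyclic_iff_forall_isBridge]
  intro e he
  induction e with
  | _ a b =>
    rw [SimpleGraph.mem_edgeSet] at he
    have key : ∀ v : W, v ≠ o → graph.IsBridge s(v, par v) := by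
      intro v hv
      rw [SimpleGraph.isBridge_iff]
      intro hr
      rw [SimpleGraph.reachable_iff_reflTransGen] at hr
      have inv : ∀ w, Relation.ReflTransGen
          (graph \ SimpleGraph.fromEdgeSet {s(v, par v)}).Adj v w → ∃ n, par^[n] w = v := by
        intro w hw
        induction hw with
        | refl => exact ⟨0, rfl⟩
        | @tail x y _ hxy ih =>
          obtain ⟨n, hn⟩ := ih
          rw [SimpleGraph.sdiff_adj, SimpleGraph.fromEdgeSet_adj] at hxy
          obtain ⟨⟨hne, h1⟩, h2⟩ := hxy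
          rcases h1 with h1 | h1
          · -- par x = y
            cases n with
            | zero =>
              exfalso
              rw [Function.iterate_zero, id] at hn
              subst hn
              apply h2
              refine ⟨?_, hne⟩
              rw [h1]
              exact Set.mem_singleton _
            | succ m =>
              rw [Function.iterate_succ_apply, h1] at hn
              exact ⟨m, hn⟩
          · exact ⟨n + 1, by rw [Function.iterate_succ_apply, h1, hn]⟩
      obtain ⟨n, hn⟩ := inv _ hr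
      have hle : ∀ n w, ht (par^[n] w) ≤ ht w := by
        intro n
        induction n with
        | zero => intro w; exact le_rfl
        | succ m ih =>
          intro w
          rw [Function.iterate_succ_apply]
          exact (ih _).trans (ht_par_le w)
      have h1 := hle n (par v)
      have h2 := ht_par v hv
      rw [hn] at h1
      omega
    rcases he.2 with h | h
    · subst h
      apply key a
      intro h0
      apply he.1
      rw [h0]; rfl
    · subst h
      rw [Sym2.eq_swap]
      apply key b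
      intro h0
      apply he.1
      rw [h0]; rfl

theorem ht_adj {u v : W} (h : graph.Adj u v) : ht v ≤ ht u + 1 := by
  rcases h.2 with h1 | h1
  · rw [← h1]; exact (ht_par_le u).trans (Nat.le_succ _)
  · have hv : v ≠ o := by
      intro h0
      apply h.1
      rw [← h1, h0]; rfl
    have := ht_par v hv
    rw [h1] at this
    omega

theorem ht_walk {u v : W} (p : graph.Walk u v) : ht v ≤ ht u + p.length := by
  induction p with
  | nil => simp
  | @cons a b c hab q ih =>
    have := ht_adj hab
    rw [SimpleGraph.Walk.length_cons]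
    omega

theorem graph_dist (n : ℕ) : ∀ v : W, ht v = n → graph.dist o v = n := by
  induction n using Nat.strong_induction_on with
  | _ n ih =>
    intro v hv
    apply le_antisymm
    · by_cases h : v = o
      · subst h
        rw [SimpleGraph.dist_self]; exact Nat.zero_le _
      · have h1 := ht_par v h
        have h2 := ih (ht (par v)) (by omega) (par v) rfl
        have h3 := graph_connected.dist_triangle (u := o) (v := par v) (w := v)
        have h4 : graph.dist (par v) v = 1 := SimpleGraph.dist_eq_one_iff_adj.2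
          (graph_adj_par h).symm
        omega
    · obtain ⟨p, hp⟩ := graph_connected.exists_walk_length_eq_dist o v
      have := ht_walk p
      rw [hp] at this
      have h0 : ht o = 0 := rfl
      omega

theorem par_fiber (v : W) : {w | par w = v} ⊆
    {(v.1 + 1, []), o, (v.1, v.2 ++ [0]), (v.1, v.2 ++ [1]), (v.1, v.2 ++ [2])} := by
  intro w hw
  have hw : par w = v := hw
  rcases cases_W w with h1 | ⟨k, h1⟩ | ⟨k, u, a, h1⟩
  · subst h1; simp
  · subst h1; rw [par_nil] at hw; subst hw; simp
  · subst h1; rw [par_concat] at hw; subst hw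
    have : a = 0 ∨ a = 1 ∨ a = 2 := by
      fin_cases a <;> simp
    rcases this with rfl | rfl | rfl <;> simp

theorem par_finite (s : Set W) (hs : s.Finite) : (par ⁻¹' s).Finite := by
  have : par ⁻¹' s ⊆ ⋃ v ∈ s,
      {(v.1 + 1, []), o, (v.1, v.2 ++ [0]), (v.1, v.2 ++ [1]), (v.1, v.2 ++ [2])} := by
    intro w hw
    simp only [Set.mem_iUnion]
    exact ⟨par w, hw, par_fiber (par w) rfl⟩
  apply Set.Finite.subset _ this
  apply hs.biUnion
  intro v _
  exact Set.toFinite _

theorem ball_finite (N : ℕ) : {v : W | ht v ≤ N}.Finite := by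
  induction N with
  | zero =>
    apply Set.Finite.subset (Set.finite_singleton o)
    intro v hv
    have hv : ht v ≤ 0 := hv
    by_contra h
    have := ht_par v h
    omega
  | succ N ih =>
    apply Set.Finite.subset (ih.union (par_finite _ ih))
    intro v hv
    have hv : ht v ≤ N + 1 := hv
    by_cases h : v = o
    · left
      subst h
      exact Nat.zero_le _
    · right
      have := ht_par v h
      show ht (par v) ≤ N
      omega

/-- The rooted tree. -/
def T : RootedTree W where
  G := graph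
  root := o
  isTree := ⟨graph_connected, graph_acyclic⟩
  locallyFinite v := by
    apply Set.Finite.subset (s := {par v} ∪ par ⁻¹' {v})
    · exact (Set.finite_singleton _).union (par_finite _ (Set.finite_singleton _))
    · intro w hw
      rw [SimpleGraph.mem_neighborSet] at hw
      rcases hw.2 with h | h
      · left; exact h.symm
      · right; exact h
  infinite := inferInstance
  degree_one v hv := by
    by_contra h0
    rw [Set.ncard_eq_one] at hv
    obtain ⟨a, ha⟩ := hv
    have h1 : par v ∈ graph.neighborSet v := graph_adj_par h0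
    have h2 : (v.1, v.2 ++ [0]) ∈ graph.neighborSet v := by
      rw [SimpleGraph.mem_neighborSet]
      refine ⟨?_, Or.inr (par_concat _ _ _)⟩
      intro h
      have := congrArg (fun x : W => x.2.length) h
      simp at this
    rw [ha, Set.mem_singleton_iff] at h1 h2
    have h3 := ht_par v h0
    rw [h1, ← h2] at h3
    simp only [ht, List.length_append, List.length_singleton] at h3
    omega

theorem dist_eq (v : W) : T.G.dist T.root v = ht v := graph_dist _ v rfl

theorem isParent_iff {w v : W} : IsParent T w v ↔ v ≠ o ∧ w = par v := by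
  unfold IsParent
  rw [dist_eq, dist_eq]
  constructor
  · rintro ⟨h1, h2⟩
    rcases h1.2 with h | h
    · exfalso
      have := ht_par_le w
      rw [h] at this
      omega
    · refine ⟨?_, h.symm⟩
      intro h0
      subst h0
      have h3 : ht o = 0 := rfl
      omega
  · rintro ⟨h1, rfl⟩
    exact ⟨(graph_adj_par h1).symm, (ht_par v h1).symm⟩

/-! ### Norm bounds -/

/-- `f` has norm at most `C`. -/
def NB (f : W → ℂ) (C : ℝ) : Prop := ‖f o‖ ≤ C ∧ ∀ v, ‖f v - f (par v)‖ ≤ C

theorem NB.nonneg {f : W → ℂ} {C : ℝ} (h : NB f C) : 0 ≤ C := (norm_nonneg _).trans h.1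

theorem NB.mono {f : W → ℂ} {C D : ℝ} (h : NB f C) (hCD : C ≤ D) : NB f D :=
  ⟨h.1.trans hCD, fun v => (h.2 v).trans hCD⟩

theorem NB.lipNorm_le {f : W → ℂ} {C : ℝ} (h : NB f C) : lipNorm T f ≤ C := by
  apply max_le h.1
  apply csSup_le
  · refine ⟨_, (0, []), (1, []), ?_, rfl⟩
    rw [isParent_iff]
    exact ⟨by simp [o], rfl⟩
  · rintro r ⟨w, v, hwv, rfl⟩
    rw [isParent_iff] at hwv
    rw [hwv.2]
    exact h.2 v

theorem littleLip_iff {f : W → ℂ} :
    LittleLip T f ↔ ∀ ε : ℝ, 0 < ε → {v | ε ≤ ‖f v - f (par v)‖}.Finite := by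
  constructor
  · intro h ε hε
    obtain ⟨N, hN⟩ := h ε hε
    apply Set.Finite.subset (ball_finite N)
    intro v hv
    have hv : ε ≤ ‖f v - f (par v)‖ := hv
    by_contra hcon
    have hcon : ¬ ht v ≤ N := hcon
    have hv0 : v ≠ o := by
      rintro rfl
      exact hcon (Nat.zero_le _)
    have := hN (par v) v (isParent_iff.2 ⟨hv0, rfl⟩) (by rw [dist_eq]; omega)
    linarith
  · intro h ε hε
    obtain ⟨N, hN⟩ := ((h ε hε).image ht).bddAbove
    refine ⟨N + 1, fun w v hwv hv => ?_⟩
    rw [isParent_iff] at hwv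
    rw [dist_eq] at hv
    rw [hwv.2]
    by_contra hcon
    push Not at hcon
    have := hN ⟨v, hcon, rfl⟩
    omega

theorem LittleLip.NB_lipNorm {f : W → ℂ} (hf : LittleLip T f) : NB f (lipNorm T f) := by
  have hbdd : BddAbove {r : ℝ | ∃ w v, IsParent T w v ∧ r = ‖f v - f w‖} := by
    have h1 := (littleLip_iff.1 hf) 1 one_pos
    have h2 := (h1.image fun v => ‖f v - f (par v)‖).bddAbove
    obtain ⟨B, hB⟩ := h2
    refine ⟨max B 1, ?_⟩
    rintro r ⟨w, v, hwv, rfl⟩
    rw [isParent_iff] at hwv
    rw [hwv.2]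
    by_cases h : 1 ≤ ‖f v - f (par v)‖
    · exact (hB ⟨v, h, rfl⟩).trans (le_max_left _ _)
    · exact (le_of_not_ge h).trans (le_max_right _ _)
  refine ⟨le_max_left _ _, fun v => ?_⟩
  by_cases h : v = o
  · subst h
    rw [par_o, sub_self, norm_zero]
    exact (norm_nonneg _).trans (le_max_left _ _)
  · refine le_trans ?_ (le_max_right _ _)
    apply le_csSup hbdd
    exact ⟨par v, v, isParent_iff.2 ⟨h, rfl⟩, rfl⟩

theorem NB.add {f g : W → ℂ} {C D : ℝ} (hf : NB f C) (hg : NB g D) :
    NB (fun v => f v + g v) (C + D) := by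
  refine ⟨(norm_add_le _ _).trans (add_le_add hf.1 hg.1), fun v => ?_⟩
  have : f v + g v - (f (par v) + g (par v)) = (f v - f (par v)) + (g v - g (par v)) := by ring
  rw [this]
  exact (norm_add_le _ _).trans (add_le_add (hf.2 v) (hg.2 v))

theorem NB.smul {f : W → ℂ} {C : ℝ} (hf : NB f C) (c : ℂ) : NB (fun v => c * f v) (‖c‖ * C) := by
  refine ⟨?_, fun v => ?_⟩
  · rw [norm_mul]
    exact mul_le_mul_of_nonneg_left hf.1 (norm_nonneg _)
  · rw [← mul_sub, norm_mul]
    exact mul_le_mul_of_nonneg_left (hf.2 v) (norm_nonneg _)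

theorem NB.sum {ι : Type} (s : Finset ι) {f : ι → W → ℂ} {C : ι → ℝ}
    (hf : ∀ i ∈ s, NB (f i) (C i)) : NB (fun v => ∑ i ∈ s, f i v) (∑ i ∈ s, C i) := by
  refine ⟨?_, fun v => ?_⟩
  · exact (norm_sum_le _ _).trans (Finset.sum_le_sum fun i hi => (hf i hi).1)
  · rw [← Finset.sum_sub_distrib]
    exact (norm_sum_le _ _).trans (Finset.sum_le_sum fun i hi => (hf i hi).2 v)

theorem NB.pointwise {f : W → ℂ} {C : ℝ} (hf : NB f C) (n : ℕ) :
    ∀ v : W, ht v = n → ‖f v‖ ≤ (n + 1) * C := by
  induction n with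
  | zero =>
    intro v hv
    have : v = o := by
      by_contra h
      have := ht_par v h
      omega
    rw [this]
    simpa using hf.1
  | succ m ih =>
    intro v hv
    have h0 : v ≠ o := by
      rintro rfl
      simp [ht] at hv
    have h1 := ih (par v) (by have := ht_par v h0; omega)
    have h2 := hf.2 v
    have h3 : f v = f (par v) + (f v - f (par v)) := by ring
    rw [h3]
    refine (norm_add_le _ _).trans ?_
    push_cast
    linarith

theorem NB.tsum {f : ℕ → W → ℂ} {c : ℕ → ℝ} (hc : Summable c) (hf : ∀ i, NB (f i) (c i)) :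
    NB (fun v => ∑' i, f i v) (∑' i, c i) := by
  have hs : ∀ v, Summable fun i => f i v := by
    intro v
    apply Summable.of_norm_bounded (g := fun i => ((ht v : ℝ) + 1) * c i) (hc.mul_left _)
    intro i
    exact (hf i).pointwise _ v rfl
  refine ⟨?_, fun v => ?_⟩
  · exact tsum_of_norm_bounded hc.hasSum fun i => (hf i).1
  · show ‖∑' i, f i v - ∑' i, f i (par v)‖ ≤ _
    rw [← (hs v).tsum_sub (hs (par v))]
    exact tsum_of_norm_bounded hc.hasSum fun i => (hf i).2 v

theorem NB.of_bound {f : W → ℂ} {B : ℝ} (hf : ∀ v, ‖f v‖ ≤ B) : NB f (2 * B) := by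
  have hB : 0 ≤ B := (norm_nonneg _).trans (hf o)
  refine ⟨(hf _).trans (by linarith), fun v => ?_⟩
  exact (norm_sub_le _ _).trans (by linarith [hf v, hf (par v)])

theorem NB.zero {C : ℝ} (hC : 0 ≤ C) : NB (fun _ => 0) C := by
  refine ⟨by simpa using hC, fun v => by simpa using hC⟩

/-! ### The symbol -/

/-- Doubling of words. -/
def sig : List (Fin 3) → List (Fin 3)
  | [] => []
  | a :: w => a :: 0 :: sig w

theorem sig_append (w u : List (Fin 3)) : sig (w ++ u) = sig w ++ sig u := by
  induction w with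
  | nil => rfl
  | cons a w ih => simp [sig, ih]

theorem sig_length (w : List (Fin 3)) : (sig w).length = 2 * w.length := by
  induction w with
  | nil => rfl
  | cons a w ih => simp [sig, ih]; ring

/-- The special part of the tree. -/
def sp (v : W) : Prop := (∃ b, 1 ≤ b ∧ v.1 = 2 ^ b) ∧ ∃ w', v.2 = 2 :: w'

/-- The parity letter. -/
def pl (k : ℕ) : Fin 3 := if k % 2 = 0 then 0 else 1

open Classical in
/-- The symbol. -/
noncomputable def φ (v : W) : W :=
  if sp v then (v.1 / 2, 2 :: sig v.2.tail) else (v.1 / 2, pl v.1 :: sig v.2)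

theorem φ_sp {v : W} (h : sp v) : φ v = (v.1 / 2, 2 :: sig v.2.tail) := if_pos h

theorem φ_not {v : W} (h : ¬ sp v) : φ v = (v.1 / 2, pl v.1 :: sig v.2) := if_neg h

theorem sp_even {v : W} (h : sp v) : v.1 % 2 = 0 := by
  obtain ⟨⟨b, hb, h1⟩, _⟩ := h
  obtain ⟨c, rfl⟩ : ∃ c, b = c + 1 := ⟨b - 1, by omega⟩
  rw [h1, pow_succ]
  omega

/-- The distance between two words in the ternary tree. -/
def δ : List (Fin 3) → List (Fin 3) → ℕ
  | [], u => u.length
  | _ :: w, [] => w.length + 1
  | a :: w, b :: u => if a = b then δ w u else w.length + u.length + 2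

theorem δ_nil_left (u : List (Fin 3)) : δ [] u = u.length := by
  cases u <;> rfl

theorem δ_nil_right (u : List (Fin 3)) : δ u [] = u.length := by
  cases u <;> simp [δ]

theorem δ_self (w : List (Fin 3)) : δ w w = 0 := by
  induction w with
  | nil => rfl
  | cons a w ih => simp [δ, ih]

theorem δ_cons (a : Fin 3) (w u : List (Fin 3)) : δ (a :: w) (a :: u) = δ w u := by
  simp [δ]

theorem δ_ne {a b : Fin 3} (h : a ≠ b) (w u : List (Fin 3)) :
    δ (a :: w) (b :: u) = w.length + u.length + 2 := by
  simp [δ, h]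

theorem δ_pos {w : List (Fin 3)} : ∀ {u : List (Fin 3)}, w ≠ u → 1 ≤ δ w u := by
  induction w with
  | nil =>
    intro u h
    rw [δ_nil_left]
    cases u with
    | nil => exact absurd rfl h
    | cons b u => simp
  | cons a w ih =>
    intro u h
    cases u with
    | nil => rw [δ_nil_right]; simp
    | cons b u =>
      by_cases hab : a = b
      · subst hab
        have : w ≠ u := fun h' => h (by rw [h'])
        simpa [δ] using ih this
      · simp [δ, hab]

theorem δ_length (w : List (Fin 3)) : ∀ u : List (Fin 3), w.length ≤ δ w u + u.length := by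
  induction w with
  | nil => intro u; simp
  | cons a w ih =>
    intro u
    cases u with
    | nil => rw [δ_nil_right]; simp
    | cons b u =>
      by_cases hab : a = b
      · have := ih u
        simp only [δ, hab, if_true, List.length_cons]
        omega
      · simp only [δ, hab, if_false, List.length_cons]
        omega

theorem δ_concat (a : Fin 3) (w : List (Fin 3)) : ∀ u : List (Fin 3),
    δ (w ++ [a]) u ≤ δ w u + 1 ∧ δ w u ≤ δ (w ++ [a]) u + 1 := by
  induction w with
  | nil =>
    intro u
    rw [List.nil_append, δ_nil_left]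
    cases u with
    | nil => simp [δ]
    | cons b u =>
      by_cases hab : a = b
      · simp only [δ, hab, if_true, List.length_cons]
        omega
      · simp only [δ, hab, if_false, List.length_cons, List.length_nil]
        omega
  | cons c w ih =>
    intro u
    cases u with
    | nil =>
      rw [δ_nil_right, δ_nil_right]
      simp
    | cons b u =>
      have := ih u
      rw [List.cons_append]
      by_cases hab : c = b
      · simp only [δ, hab, if_true]
        exact this
      · simp only [δ, hab, if_false, List.length_append, List.length_singleton]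
        omega

theorem δ_sig (w : List (Fin 3)) : ∀ u : List (Fin 3), δ (sig w) (sig u) = 2 * δ w u := by
  induction w with
  | nil =>
    intro u
    show δ [] (sig u) = _
    rw [δ_nil_left, δ_nil_left, sig_length]
  | cons a w ih =>
    intro u
    cases u with
    | nil =>
      show δ (sig (a :: w)) [] = _
      rw [δ_nil_right, δ_nil_right, sig_length]
    | cons b u =>
      by_cases hab : a = b
      · simp only [sig, δ, hab, if_true]
        exact ih u
      · simp only [sig, δ, hab, if_false, List.length_cons, sig_length]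
        ring

/-- The distance in the tree. -/
def d (v y : W) : ℕ :=
  if v.1 = y.1 then δ v.2 y.2 else v.2.length + y.2.length + (v.1 - y.1) + (y.1 - v.1)

theorem d_self (v : W) : d v v = 0 := by simp [d, δ_self]

theorem d_pos {v y : W} (h : v ≠ y) : 1 ≤ d v y := by
  unfold d
  split_ifs with h1
  · apply δ_pos
    intro h2
    exact h (Prod.ext h1 h2)
  · omega

theorem ht_le_d (v y : W) : ht v ≤ d v y + ht y := by
  unfold d ht
  split_ifs with h1
  · have := δ_length v.2 y.2
    omega
  · omega

theorem d_root (y : W) : y.2.length ≤ d o y := by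
  unfold d
  split_ifs with h1
  · rw [δ_nil_left]
  · omega

theorem d_par (v y : W) : d v y ≤ d (par v) y + 1 ∧ d (par v) y ≤ d v y + 1 := by
  rcases cases_W v with h1 | ⟨k, h1⟩ | ⟨k, w, a, h1⟩
  · subst h1; rw [par_o]; omega
  · subst h1
    rw [par_nil]
    unfold d
    simp only [δ_nil_left, List.length_nil]
    split_ifs <;> omega
  · subst h1
    rw [par_concat]
    unfold d
    have := δ_concat a w y.2
    simp only [List.length_append, List.length_singleton]
    split_ifs <;> omega

theorem φ_fst (v : W) : (φ v).1 = v.1 / 2 := by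
  by_cases h : sp v
  · rw [φ_sp h]
  · rw [φ_not h]

/-- The size of a vertex. -/
def sz (v : W) : ℕ := v.2.length - 1

theorem sz_φ (v : W) : 2 * sz v ≤ sz (φ v) := by
  unfold sz
  by_cases h : sp v
  · obtain ⟨_, w', hw⟩ := id h
    rw [φ_sp h, hw]
    simp only [List.tail_cons, List.length_cons, sig_length]
    omega
  · rw [φ_not h]
    simp only [List.length_cons, sig_length]
    omega

theorem φ_same {v y : W} (h : v.1 = y.1) : d (φ v) (φ y) = 2 * d v y := by
  have hc : (φ v).1 = (φ y).1 := by rw [φ_fst, φ_fst, h]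
  have key : δ (φ v).2 (φ y).2 = 2 * δ v.2 y.2 := by
    by_cases hv : sp v <;> by_cases hy : sp y
    · obtain ⟨_, w, hw⟩ := id hv
      obtain ⟨_, u, hu⟩ := id hy
      rw [φ_sp hv, φ_sp hy, hw, hu]
      simp only [List.tail_cons]
      rw [δ_cons, δ_cons, δ_sig]
    · have hy' := hy
      obtain ⟨h1, w, hw⟩ := id hv
      rw [φ_sp hv, φ_not hy, hw]
      have hne : (2 : Fin 3) ≠ pl y.1 := by
        unfold pl; split_ifs <;> decide
      simp only [List.tail_cons]
      rw [δ_ne hne]
      rcases hu : y.2 with _ | ⟨b, u⟩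
      · rw [δ_nil_right]
        simp only [List.length_cons, sig_length, List.length_nil]
        ring
      · have hb : (2 : Fin 3) ≠ b := by
          rintro rfl
          exact hy' ⟨by rw [← h]; exact h1, u, hu⟩
        rw [δ_ne hb]
        simp only [List.length_cons, sig_length]
        ring
    · have hv' := hv
      obtain ⟨h1, w, hw⟩ := id hy
      rw [φ_sp hy, φ_not hv, hw]
      have hne : pl v.1 ≠ (2 : Fin 3) := by
        unfold pl; split_ifs <;> decide
      simp only [List.tail_cons]
      rw [δ_ne hne]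
      rcases hu : v.2 with _ | ⟨b, u⟩
      · rw [δ_nil_left]
        simp only [List.length_cons, sig_length, List.length_nil]
        ring
      · have hb : b ≠ (2 : Fin 3) := by
          rintro rfl
          exact hv' ⟨by rw [h]; exact h1, u, hu⟩
        rw [δ_ne hb]
        simp only [List.length_cons, sig_length]
        ring
    · rw [φ_not hv, φ_not hy, h]
      simp only
      rw [δ_cons, δ_sig]
  unfold d
  rw [if_pos hc, if_pos h, key]

theorem φ_merge {v y : W} (h : v.1 ≠ y.1) (h2 : v.1 / 2 = y.1 / 2) :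
    d (φ v) (φ y) = (φ v).2.length + (φ y).2.length := by
  have hc : (φ v).1 = (φ y).1 := by rw [φ_fst, φ_fst, h2]
  unfold d
  rw [if_pos hc]
  have hpl : pl v.1 ≠ pl y.1 := by
    unfold pl
    rcases Nat.mod_two_eq_zero_or_one v.1 with h4 | h4 <;>
      rcases Nat.mod_two_eq_zero_or_one y.1 with h5 | h5
    · omega
    · simp [h4, h5]
    · simp [h4, h5]
    · omega
  by_cases hv : sp v <;> by_cases hy : sp y
  · have := sp_even hv
    have := sp_even hy
    omega
  · rw [φ_sp hv, φ_not hy]
    have hne : (2 : Fin 3) ≠ pl y.1 := by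
      unfold pl; split_ifs <;> decide
    simp only
    rw [δ_ne hne]
    simp only [List.length_cons]
    ring
  · rw [φ_sp hy, φ_not hv]
    have hne : pl v.1 ≠ (2 : Fin 3) := by
      unfold pl; split_ifs <;> decide
    simp only
    rw [δ_ne hne]
    simp only [List.length_cons]
    ring
  · rw [φ_not hv, φ_not hy]
    simp only
    rw [δ_ne hpl]
    simp only [List.length_cons]
    ring

theorem φ_len_pos (v : W) : 1 ≤ (φ v).2.length := by
  by_cases h : sp v
  · rw [φ_sp h]; simp
  · rw [φ_not h]; simp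

theorem φ_inj : Function.Injective φ := by
  intro v y h
  by_contra hne
  have h1 : v.1 / 2 = y.1 / 2 := by rw [← φ_fst, ← φ_fst, h]
  have h0 : d (φ v) (φ y) = 0 := by rw [h, d_self]
  by_cases hc : v.1 = y.1
  · rw [φ_same hc] at h0
    have := d_pos hne
    omega
  · rw [φ_merge hc h1] at h0
    have := φ_len_pos v
    omega

/-- Separation of orbits. -/
theorem separation {v y : W} (hvy : v ≠ y) (hv : 1 ≤ sz v) (n : ℕ) :
    ((φ^[n] v).1 = (φ^[n] y).1 → 2 ^ n ≤ d (φ^[n] v) (φ^[n] y)) ∧
    ((φ^[n] v).1 ≠ (φ^[n] y).1 → 2 ^ n ≤ sz (φ^[n] v)) := by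
  induction n with
  | zero =>
    exact ⟨fun _ => d_pos hvy, fun _ => hv⟩
  | succ n ih =>
    rw [Function.iterate_succ_apply', Function.iterate_succ_apply']
    set a := φ^[n] v
    set b := φ^[n] y
    by_cases hab : a.1 = b.1
    · have h1 := ih.1 hab
      refine ⟨fun _ => ?_, fun h => absurd ?_ h⟩
      · rw [φ_same hab, pow_succ]; omega
      · rw [φ_fst, φ_fst, hab]
    · have h1 := ih.2 hab
      have h2 := sz_φ a
      refine ⟨fun h => ?_, fun h => ?_⟩
      · rw [φ_fst, φ_fst] at h
        rw [φ_merge hab h, pow_succ]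
        unfold sz at h1 h2
        omega
      · rw [pow_succ]; omega

theorem sz_le_d {v y : W} (h : v.1 ≠ y.1) : sz v ≤ d v y := by
  unfold d sz
  rw [if_neg h]
  omega

theorem sep0 {v y : W} (hvy : v ≠ y) (hv : 1 ≤ sz v) (n : ℕ) :
    2 ^ n ≤ d (φ^[n] v) (φ^[n] y) := by
  have h := separation hvy hv n
  by_cases hc : (φ^[n] v).1 = (φ^[n] y).1
  · exact h.1 hc
  · exact (h.2 hc).trans (sz_le_d hc)

theorem sep {s n : ℕ} {v y : W} (hvy : v ≠ y) (hv : 1 ≤ sz (φ^[s] v)) (hn : s ≤ n) :
    2 ^ (n - s) ≤ d (φ^[n] v) (φ^[n] y) := by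
  have h1 : φ^[s] v ≠ φ^[s] y := fun h => hvy (φ_inj.iterate s h)
  have h2 := sep0 h1 hv (n - s)
  rw [← Function.iterate_add_apply, ← Function.iterate_add_apply] at h2
  have : n - s + s = n := by omega
  rw [this] at h2
  exact h2

theorem sz_iter (n : ℕ) (v : W) : 2 ^ n * sz v ≤ sz (φ^[n] v) := by
  induction n with
  | zero => simp
  | succ n ih =>
    rw [Function.iterate_succ_apply']
    have := sz_φ (φ^[n] v)
    rw [pow_succ]
    nlinarith

theorem sep_root {s n : ℕ} {v : W} (hv : 1 ≤ sz (φ^[s] v)) (hn : s ≤ n) :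
    2 ^ (n - s) ≤ d o (φ^[n] v) := by
  refine le_trans ?_ (d_root _)
  have h2 := sz_iter (n - s) (φ^[s] v)
  rw [← Function.iterate_add_apply] at h2
  have : n - s + s = n := by omega
  rw [this] at h2
  have h3 : 2 ^ (n - s) ≤ 2 ^ (n - s) * sz (φ^[s] v) := Nat.le_mul_of_pos_right _ hv
  have h4 : sz (φ^[n] v) ≤ (φ^[n] v).2.length := Nat.sub_le _ _
  omega

/-- After two steps a vertex is large unless it is a distinguished one. -/
theorem two_steps (v : W) (h : sz (φ^[2] v) = 0) : ∃ b, 1 ≤ b ∧ v = (2 ^ b, [2]) := by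
  by_cases hv : sp v
  · obtain ⟨⟨b, hb, h1⟩, w, hw⟩ := hv
    refine ⟨b, hb, ?_⟩
    have h2 := sz_iter 2 v
    rw [h] at h2
    have h3 : sz v = 0 := by omega
    unfold sz at h3
    rw [hw, List.length_cons] at h3
    have h4 : w = [] := List.length_eq_zero_iff.1 (by omega)
    rw [h4] at hw
    exact Prod.ext h1 hw
  · exfalso
    have h1 : φ^[2] v = φ (φ v) := rfl
    have h2 : ¬ sp (φ v) := by
      rintro ⟨_, w, hw⟩
      rw [φ_not hv] at hw
      simp only [List.cons.injEq] at hw
      have : pl v.1 ≠ (2 : Fin 3) := by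
        unfold pl; split_ifs <;> decide
      exact this hw.1
    rw [h1, φ_not h2, φ_not hv] at h
    unfold sz at h
    simp only [List.length_cons, sig_length] at h
    omega

theorem φ_special {b : ℕ} (hb : 1 ≤ b) : φ (2 ^ b, [2]) = (2 ^ (b - 1), [2]) := by
  have h : sp (2 ^ b, [2]) := ⟨⟨b, hb, rfl⟩, [], rfl⟩
  rw [φ_sp h]
  obtain ⟨c, rfl⟩ : ∃ c, b = c + 1 := ⟨b - 1, by omega⟩
  simp [pow_succ, sig]

theorem φ_iter_special (n : ℕ) : ∀ b, n ≤ b → φ^[n] (2 ^ b, [2]) = (2 ^ (b - n), [2]) := by
  induction n with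
  | zero => intro b _; rfl
  | succ n ih =>
    intro b hb
    rw [Function.iterate_succ_apply, φ_special (by omega), ih (b - 1) (by omega)]
    have : b - 1 - n = b - (n + 1) := by omega
    rw [this]

theorem leaves (v : W) : ∃ s, 1 ≤ sz (φ^[s] v) := by
  by_contra hcon
  push Not at hcon
  have h0 : ∀ s, sz (φ^[s] v) = 0 := fun s => by have := hcon s; omega
  obtain ⟨b, hb, h1⟩ := two_steps v (h0 2)
  have h2 := h0 (b + 2)
  have h3 : φ^[b + 2] v = φ^[2] (φ^[b] v) := by
    rw [← Function.iterate_add_apply, Nat.add_comm]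
  rw [h3, h1, φ_iter_special b b le_rfl] at h2
  obtain ⟨c, hc, h4⟩ := two_steps _ h2
  have h5 : (2 : ℕ) ^ (b - b) = 2 ^ c := congrArg Prod.fst h4
  rw [Nat.sub_self] at h5
  have h6 := Nat.pow_right_injective (le_refl 2) h5
  omega

/-- Long backward orbits from small vertices. -/
theorem backward {n : ℕ} {v : W} (hn : 2 ≤ n) (h : sz (φ^[n] v) = 0) :
    ∃ b, n - 1 ≤ b ∧ 1 ≤ b ∧ v = (2 ^ b, [2]) := by
  have h1 : φ^[n] v = φ^[n - 2] (φ^[2] v) := by
    rw [← Function.iterate_add_apply]
    congr 2
    omega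
  have h2 : sz (φ^[2] v) = 0 := by
    have h3 := sz_iter (n - 2) (φ^[2] v)
    rw [← h1, h] at h3
    have h4 : 0 < 2 ^ (n - 2) := by positivity
    by_contra hcon
    have : 0 < 2 ^ (n - 2) * sz (φ^[2] v) := Nat.mul_pos h4 (by omega)
    omega
  obtain ⟨b, hb, h3⟩ := two_steps v h2
  refine ⟨b, ?_, hb, h3⟩
  by_contra hcon
  have hbn : b + 2 ≤ n := by omega
  have h4 : φ^[n] v = φ^[n - (b + 2)] (φ^[2] (φ^[b] v)) := by
    rw [← Function.iterate_add_apply, ← Function.iterate_add_apply]
    congr 2
    omega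
  have h5 : sz (φ^[2] (φ^[b] v)) = 0 := by
    have h6 := sz_iter (n - (b + 2)) (φ^[2] (φ^[b] v))
    rw [← h4, h] at h6
    have h7 : 0 < 2 ^ (n - (b + 2)) := by positivity
    by_contra hcon
    have : 0 < 2 ^ (n - (b + 2)) * sz (φ^[2] (φ^[b] v)) := Nat.mul_pos h7 (by omega)
    omega
  rw [h3, φ_iter_special b b le_rfl] at h5
  obtain ⟨c, hc, h8⟩ := two_steps _ h5
  have h9 : (2 : ℕ) ^ (b - b) = 2 ^ c := congrArg Prod.fst h8
  rw [Nat.sub_self] at h9
  have h10 := Nat.pow_right_injective (le_refl 2) h9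
  omega

/-- Vertices close to a distinguished one are large after two steps. -/
theorem near_special {b r : ℕ} (hb : 1 ≤ b) (hr : r ≤ 2 ^ (b - 1)) {v : W}
    (hv : v ≠ (2 ^ b, [2])) (hd : d v (2 ^ b, [2]) < r) : 1 ≤ sz (φ^[2] v) := by
  by_contra hcon
  obtain ⟨c, hc, h⟩ := two_steps v (by omega)
  subst h
  have hcb : c ≠ b := by
    rintro rfl
    exact hv rfl
  obtain ⟨b', rfl⟩ : ∃ b', b = b' + 1 := ⟨b - 1, by omega⟩
  rw [Nat.add_sub_cancel] at hr
  have hp : 2 ^ (b' + 1) = 2 * 2 ^ b' := by rw [pow_succ]; ring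
  have hpos : 0 < 2 ^ b' := by positivity
  have hne : 2 ^ c ≠ 2 ^ (b' + 1) := fun h => hcb (Nat.pow_right_injective (le_refl 2) h)
  unfold d at hd
  simp only at hd
  rw [if_neg hne] at hd
  simp only [List.length_cons, List.length_nil] at hd
  rcases lt_or_gt_of_ne hcb with h | h
  · have h2 : 2 ^ c ≤ 2 ^ b' := Nat.pow_le_pow_right (by norm_num) (by omega)
    omega
  · have h2 : 2 ^ (b' + 2) ≤ 2 ^ c := Nat.pow_le_pow_right (by norm_num) (by omega)
    have h3 : 2 ^ (b' + 2) = 4 * 2 ^ b' := by rw [pow_add]; ring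
    omega

/-! ### The composition operator -/

theorem par_two (k : ℕ) (x : List (Fin 3)) (a b : Fin 3) :
    par (k, x ++ [a, b]) = (k, x ++ [a]) := by
  have : x ++ [a, b] = (x ++ [a]) ++ [b] := by simp
  rw [this, par_concat]

/-- Images of adjacent vertices are close. -/
theorem φ_par (f : W → ℂ) (v : W) : ‖f (φ v) - f (φ (par v))‖ ≤
    ‖f (φ v) - f (par (φ v))‖ + ‖f (par (φ v)) - f (par (par (φ v)))‖ +
      ‖f (φ (par v)) - f (par (φ (par v)))‖ := by
  have chain : par (par (φ v)) = φ (par v) → ‖f (φ v) - f (φ (par v))‖ ≤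
    ‖f (φ v) - f (par (φ v))‖ + ‖f (par (φ v)) - f (par (par (φ v)))‖ +
      ‖f (φ (par v)) - f (par (φ (par v)))‖ := by
    intro h
    rw [h]
    have e : f (φ v) - f (φ (par v)) =
      (f (φ v) - f (par (φ v))) + (f (par (φ v)) - f (φ (par v))) := by ring
    rw [e]
    refine (norm_add_le _ _).trans ?_
    linarith [norm_nonneg (f (φ (par v)) - f (par (φ (par v))))]
  rcases cases_W v with h1 | ⟨k, h1⟩ | ⟨k, w, a, h1⟩
  · subst h1
    rw [par_o, sub_self, norm_zero]
    positivity
  · subst h1
    have hn1 : ¬ sp (k + 1, []) := by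
      rintro ⟨_, w, hw⟩
      simp at hw
    have hn2 : ¬ sp (k, []) := by
      rintro ⟨_, w, hw⟩
      simp at hw
    rw [par_nil, Nat.add_sub_cancel, φ_not hn1, φ_not hn2]
    simp only [sig]
    have p1 : ∀ (i : ℕ) (a : Fin 3), par (i, [a]) = (i, []) := fun i a => par_concat i [] a
    rw [p1, p1, par_nil]
    rcases Nat.even_or_odd' k with ⟨m, hm | hm⟩
    · have e1 : (k + 1) / 2 = m := by omega
      have e2 : k / 2 = m := by omega
      rw [e1, e2]
      have e : f (m, [pl (k + 1)]) - f (m, [pl k]) =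
        (f (m, [pl (k + 1)]) - f (m, [])) - (f (m, [pl k]) - f (m, [])) := by ring
      rw [e]
      refine (norm_sub_le _ _).trans ?_
      linarith [norm_nonneg (f (m, []) - f (m - 1, []))]
    · have e1 : (k + 1) / 2 = m + 1 := by omega
      have e2 : k / 2 = m := by omega
      rw [e1, e2, Nat.add_sub_cancel]
      have e : f (m + 1, [pl (k + 1)]) - f (m, [pl k]) =
        ((f (m + 1, [pl (k + 1)]) - f (m + 1, [])) + (f (m + 1, []) - f (m, []))) -
          (f (m, [pl k]) - f (m, [])) := by ring
      rw [e]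
      refine (norm_sub_le _ _).trans ?_
      linarith [norm_add_le (f (m + 1, [pl (k + 1)]) - f (m + 1, [])) (f (m + 1, []) - f (m, []))]
  · subst h1
    rw [par_concat]
    rw [par_concat] at chain
    by_cases hv : sp (k, w ++ [a])
    · obtain ⟨hb, w', hw'⟩ := id hv
      have hb : ∃ b, 1 ≤ b ∧ k = 2 ^ b := hb
      have hw' : w ++ [a] = 2 :: w' := hw'
      cases w with
      | nil =>
        simp only [List.nil_append, List.cons.injEq] at hw'
        obtain ⟨ha, hw'⟩ := hw'
        subst ha
        have hn2 : ¬ sp (k, []) := by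
          rintro ⟨_, w, hw⟩
          simp at hw
        rw [φ_sp hv, φ_not hn2]
        simp only [List.nil_append, List.tail_cons, sig]
        have p1 : ∀ (i : ℕ) (a : Fin 3), par (i, [a]) = (i, []) := fun i a => par_concat i [] a
        rw [p1, p1]
        have e : f (k / 2, [2]) - f (k / 2, [pl k]) =
          (f (k / 2, [2]) - f (k / 2, [])) - (f (k / 2, [pl k]) - f (k / 2, [])) := by ring
        rw [e]
        refine (norm_sub_le _ _).trans ?_
        linarith [norm_nonneg (f (k / 2, []) - f (par (k / 2, [])))]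
      | cons c w =>
        rw [List.cons_append, List.cons.injEq] at hw'
        obtain ⟨hc, _⟩ := hw'
        subst hc
        have h2 : sp (k, 2 :: w) := ⟨hb, w, rfl⟩
        apply chain
        rw [φ_sp hv, φ_sp h2]
        simp only [List.cons_append, List.tail_cons]
        rw [sig_append]
        simp only [sig]
        rw [← List.cons_append, par_two, par_concat]
    · have h2 : ¬ sp (k, w) := by
        rintro ⟨hb, w', hw'⟩
        have hw' : w = 2 :: w' := hw'
        apply hv
        exact ⟨hb, w' ++ [a], by simp [hw']⟩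
      apply chain
      rw [φ_not hv, φ_not h2]
      simp only
      rw [sig_append]
      simp only [sig]
      rw [← List.cons_append, par_two, par_concat]

theorem NB.comp_φ {f : W → ℂ} {C : ℝ} (hf : NB f C) : NB (fun v => f (φ v)) (3 * C) := by
  have hC := hf.nonneg
  refine ⟨?_, fun v => ?_⟩
  · have hn : ¬ sp o := by
      rintro ⟨_, w, hw⟩
      simp at hw
    have h1 := hf.2 (0, [0])
    have h2 := hf.1
    have e : par (0, [0]) = o := par_concat 0 [] 0
    have e1 : φ o = (0, [0]) := by
      rw [φ_not hn]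
      simp [pl, sig]
    rw [e] at h1
    simp only
    rw [e1]
    have e2 : f (0, [0]) = (f (0, [0]) - f o) + f o := by ring
    rw [e2]
    exact (norm_add_le _ _).trans (by linarith)
  · refine (φ_par f v).trans ?_
    linarith [hf.2 (φ v), hf.2 (par (φ v)), hf.2 (φ (par v))]

theorem NB.comp_φ_iter {f : W → ℂ} {C : ℝ} (hf : NB f C) (n : ℕ) :
    NB (fun v => f (φ^[n] v)) (3 ^ n * C) := by
  induction n with
  | zero => simpa using hf
  | succ m ih =>
    have := ih.comp_φ
    simp only [Function.iterate_succ_apply]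
    refine this.mono (le_of_eq ?_)
    ring

theorem compositionOperator : IsCompositionOperator T φ := by
  constructor
  · intro f hf
    rw [littleLip_iff] at hf ⊢
    intro ε hε
    have h1 := hf (ε / 3) (by linarith)
    set S := {v | ε / 3 ≤ ‖f v - f (par v)‖}
    have hφ : ∀ s : Set W, s.Finite → (φ ⁻¹' s).Finite :=
      fun s hs => hs.preimage φ_inj.injOn
    have hsub : {v | ε ≤ ‖(f ∘ φ) v - (f ∘ φ) (par v)‖} ⊆
        φ ⁻¹' S ∪ φ ⁻¹' (par ⁻¹' S) ∪ par ⁻¹' (φ ⁻¹' S) := by
      intro v hv
      have hv : ε ≤ ‖f (φ v) - f (φ (par v))‖ := hv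
      have h := φ_par f v
      by_contra hcon
      simp only [Set.mem_union, Set.mem_preimage, not_or] at hcon
      have h2 : ¬ (ε / 3 ≤ ‖f (φ v) - f (par (φ v))‖) := hcon.1.1
      have h3 : ¬ (ε / 3 ≤ ‖f (par (φ v)) - f (par (par (φ v)))‖) := hcon.1.2
      have h4 : ¬ (ε / 3 ≤ ‖f (φ (par v)) - f (par (φ (par v)))‖) := hcon.2
      linarith
    refine Set.Finite.subset ?_ hsub
    exact ((hφ _ h1).union (hφ _ (par_finite _ h1))).union (par_finite _ (hφ _ h1))
  · refine ⟨3, fun f hf => ?_⟩
    exact (LittleLip.NB_lipNorm hf).comp_φ.lipNorm_le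

/-! ### Extension of functions on the images -/

theorem δ_comm (w : List (Fin 3)) : ∀ u : List (Fin 3), δ w u = δ u w := by
  induction w with
  | nil => intro u; rw [δ_nil_left, δ_nil_right]
  | cons a w ih =>
    intro u
    cases u with
    | nil => rw [δ_nil_left, δ_nil_right]
    | cons b u =>
      by_cases hab : a = b
      · subst hab
        rw [δ_cons, δ_cons, ih]
      · rw [δ_ne hab, δ_ne (Ne.symm hab)]
        ring

theorem d_comm (v y : W) : d v y = d y v := by
  unfold d
  by_cases h : v.1 = y.1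
  · rw [if_pos h, if_pos h.symm, δ_comm]
  · rw [if_neg h, if_neg (Ne.symm h)]
    omega

theorem max_lip (x y : ℝ) : |max 0 x - max 0 y| ≤ |x - y| := by
  rcases le_total 0 x with hx | hx <;> rcases le_total 0 y with hy | hy
  · rw [max_eq_right hx, max_eq_right hy]
  · rw [max_eq_right hx, max_eq_left hy, abs_of_nonneg (by linarith),
      abs_of_nonneg (by linarith)]
    linarith
  · rw [max_eq_left hx, max_eq_right hy, abs_of_nonpos (by linarith),
      abs_of_nonpos (by linarith)]
    linarith
  · rw [max_eq_left hx, max_eq_left hy, sub_self, abs_zero]; exact abs_nonneg _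

theorem near_finite (y : W) (R : ℕ) : {z | d z y < R}.Finite := by
  apply Set.Finite.subset (ball_finite (R + ht y))
  intro z hz
  have hz : d z y < R := hz
  have := ht_le_d z y
  show ht z ≤ R + ht y
  omega

theorem mcshane (n : ℕ) (F : Finset W) (H : W → ℝ) (ρ : ℕ) (hρ : 1 ≤ ρ)
    (hH0 : ∀ v, 0 ≤ H v) (hH1 : ∀ v, H v ≤ 1) (hHF : ∀ v, v ∉ F → H v = 0)
    (hsep : ∀ v ∈ F, ∀ y, v ≠ y → ρ ≤ d (φ^[n] v) (φ^[n] y))
    (hroot : ∀ v ∈ F, ρ ≤ d o (φ^[n] v)) :
    ∃ u : W → ℂ, (Function.support u).Finite ∧ NB u (1 / ρ) ∧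
      ∀ v, u (φ^[n] v) = (H v : ℂ) := by
  classical
  have hρ0 : (0 : ℝ) < ρ := by exact_mod_cast hρ
  set g : W → W → NNReal := fun z v => Real.toNNReal (H v - (d z (φ^[n] v) : ℝ) / ρ) with hg
  set U : W → NNReal := fun z => F.sup (g z) with hU
  have hzero : ∀ z v, ρ ≤ d z (φ^[n] v) → g z v = 0 := by
    intro z v h
    simp only [hg]
    rw [Real.toNNReal_eq_zero]
    have h1 : (ρ : ℝ) ≤ d z (φ^[n] v) := by exact_mod_cast h
    have h2 : 1 ≤ (d z (φ^[n] v) : ℝ) / ρ := by rw [le_div_iff₀ hρ0]; linarith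
    linarith [hH1 v]
  have hUroot : U o = 0 := by
    simp only [hU]
    rw [← bot_eq_zero, eq_bot_iff]
    apply Finset.sup_le
    intro v hv
    rw [hzero o v (hroot v hv)]
    exact bot_le
  have hUval : ∀ v, U (φ^[n] v) = Real.toNNReal (H v) := by
    intro v
    apply le_antisymm
    · apply Finset.sup_le
      intro v' hv'
      by_cases h : v' = v
      · subst h
        simp only [hg]
        rw [d_self]
        simp
      · rw [hzero _ v' (by rw [d_comm]; exact hsep v' hv' v h)]
        exact bot_le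
    · by_cases hv : v ∈ F
      · refine le_trans (le_of_eq ?_) (Finset.le_sup (f := g (φ^[n] v)) hv)
        simp only [hg]
        rw [d_self]
        simp
      · rw [hHF v hv]
        simp
  have hstep : ∀ z z' : W, (∀ y, d z' y ≤ d z y + 1) → (U z : ℝ) ≤ U z' + 1 / ρ := by
    intro z z' h
    have h1 : U z ≤ U z' + Real.toNNReal (1 / ρ) := by
      apply Finset.sup_le
      intro v hv
      have h2 : g z v ≤ g z' v + Real.toNNReal (1 / ρ) := by
        simp only [hg]
        refine le_trans (Real.toNNReal_le_toNNReal ?_) Real.toNNReal_add_le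
        have h3 : (d z' (φ^[n] v) : ℝ) ≤ d z (φ^[n] v) + 1 := by exact_mod_cast h _
        have h4 : (d z' (φ^[n] v) : ℝ) / ρ ≤ (d z (φ^[n] v) + 1) / ρ :=
          div_le_div_of_nonneg_right h3 hρ0.le
        rw [add_div] at h4
        linarith
      exact h2.trans (add_le_add (Finset.le_sup (f := g z') hv) le_rfl)
    have h2 : (U z : ℝ) ≤ ((U z' + Real.toNNReal (1 / ρ) : NNReal) : ℝ) := NNReal.coe_le_coe.2 h1
    rw [NNReal.coe_add, Real.coe_toNNReal _ (by positivity)] at h2
    exact h2
  refine ⟨fun z => ((U z : ℝ) : ℂ), ?_, ?_, ?_⟩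
  · apply Set.Finite.subset (F.finite_toSet.biUnion fun v _ => near_finite (φ^[n] v) ρ)
    intro z hz
    rw [Function.mem_support] at hz
    by_contra hcon
    apply hz
    have : U z = 0 := by
      simp only [hU]
      rw [← bot_eq_zero, eq_bot_iff]
      apply Finset.sup_le
      intro v hv
      rw [hzero z v]
      · exact bot_le
      · by_contra h
        push Not at h
        apply hcon
        rw [Set.mem_iUnion₂]
        exact ⟨v, hv, h⟩
    rw [this]
    simp
  · refine ⟨?_, fun v => ?_⟩
    · simp only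
      rw [hUroot]
      simp
    · simp only
      rw [← Complex.ofReal_sub, Complex.norm_real, Real.norm_eq_abs, abs_le]
      have h1 := hstep v (par v) fun y => (d_par v y).2
      have h2 := hstep (par v) v fun y => (d_par v y).1
      constructor <;> linarith
  · intro v
    simp only
    rw [hUval, Real.coe_toNNReal _ (hH0 v)]

theorem inv_pow_small {ε : ℝ} (hε : 0 < ε) : ∃ r : ℕ, 1 ≤ r ∧ 1 / (r : ℝ) ≤ ε ∧
    ∀ m, r ≤ m → 1 / ((2 ^ m : ℕ) : ℝ) ≤ ε := by
  obtain ⟨r, hr⟩ := exists_nat_gt (1 / ε)
  have h0 : 0 < 1 / ε := by positivity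
  have hr0 : (0 : ℝ) < r := h0.trans hr
  have h1 : 1 / (r : ℝ) ≤ ε := by
    rw [div_le_iff₀ hr0]
    rw [div_lt_iff₀ hε] at hr
    nlinarith
  refine ⟨r, by exact_mod_cast hr0, h1, fun m hm => ?_⟩
  refine le_trans ?_ h1
  apply one_div_le_one_div_of_le hr0
  have h2 : r ≤ 2 ^ m := hm.trans (Nat.lt_two_pow_self).le
  exact_mod_cast h2

/-- Approximate preimages of indicators. -/
theorem preimage_point (x : W) {ε : ℝ} (hε : 0 < ε) : ∃ N : ℕ, ∀ n, N ≤ n → ∃ u : W → ℂ,
    (Function.support u).Finite ∧ NB u ε ∧ ∀ v, u (φ^[n] v) = if v = x then 1 else 0 := by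
  classical
  obtain ⟨s, hs⟩ := leaves x
  obtain ⟨r, hr1, _, hr⟩ := inv_pow_small hε
  refine ⟨s + r, fun n hn => ?_⟩
  obtain ⟨u, h1, h2, h3⟩ := mcshane n {x} (fun v => if v = x then 1 else 0) (2 ^ (n - s))
    Nat.one_le_two_pow (fun v => by split_ifs <;> norm_num) (fun v => by split_ifs <;> norm_num)
    (fun v hv => by
      rw [Finset.mem_singleton] at hv
      rw [if_neg hv])
    (fun v hv y hy => by
      rw [Finset.mem_singleton] at hv
      subst hv
      exact sep hy hs (by omega))
    (fun v hv => by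
      rw [Finset.mem_singleton] at hv
      subst hv
      exact sep_root hs (by omega))
  refine ⟨u, h1, h2.mono (hr _ (by omega)), fun v => ?_⟩
  rw [h3]
  split_ifs <;> simp

/-- Indicators can be perturbed to functions with small iterates. -/
theorem kill_point (x : W) {ε : ℝ} (hε : 0 < ε) : ∃ N : ℕ, ∀ n, N ≤ n → ∃ u : W → ℂ,
    (Function.support u).Finite ∧ NB u ε ∧
      NB (fun v => (if φ^[n] v = x then 1 else 0) + u (φ^[n] v)) ε := by
  classical
  by_cases hx : ∃ n₀, ∀ w, φ^[n₀] w ≠ x
  · obtain ⟨n₀, h0⟩ := hx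
    refine ⟨n₀, fun n hn => ⟨fun _ => 0, ?_, NB.zero hε.le, ?_⟩⟩
    · rw [Function.support_fun_zero]
      exact Set.finite_empty
    · have h1 : ∀ v, φ^[n] v ≠ x := by
        intro v h
        apply h0 (φ^[n - n₀] v)
        rw [← Function.iterate_add_apply]
        have : n₀ + (n - n₀) = n := by omega
        rw [this]
        exact h
      simp only [h1, if_false, add_zero]
      exact NB.zero hε.le
  · push Not at hx
    obtain ⟨r, hr1, hr2, hr3⟩ := inv_pow_small hε
    set m := sz x with hm
    refine ⟨m + r + 2, fun n hn => ?_⟩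
    obtain ⟨p, hp⟩ := hx n
    have hy : sz (φ^[n - m] p) = 0 := by
      have h1 := sz_iter m (φ^[n - m] p)
      rw [← Function.iterate_add_apply] at h1
      have h2 : m + (n - m) = n := by omega
      rw [h2, hp, ← hm] at h1
      by_contra hcon
      have h3 : 2 ^ m ≤ 2 ^ m * sz (φ^[n - m] p) := Nat.le_mul_of_pos_right _ (by omega)
      have h4 : m < 2 ^ m := Nat.lt_two_pow_self
      omega
    obtain ⟨b, hb1, hb2, hpb⟩ := backward (by omega) hy
    have hrb : r ≤ 2 ^ (b - 1) := by
      have h1 : b - 1 < 2 ^ (b - 1) := Nat.lt_two_pow_self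
      omega
    have hr0 : (0 : ℝ) < r := by exact_mod_cast hr1
    set H : W → ℝ := fun v => if v = p then 0 else max 0 (1 - (d v p : ℝ) / r) with hH
    have hfin : {v | d v p < r ∧ v ≠ p}.Finite :=
      (near_finite p r).subset fun v hv => hv.1
    have hclose : ∀ v ∈ hfin.toFinset, 1 ≤ sz (φ^[2] v) := by
      intro v hv
      rw [Set.Finite.mem_toFinset] at hv
      obtain ⟨h1, h2⟩ := hv
      rw [hpb] at h1 h2
      exact near_special hb2 hrb h2 h1
    obtain ⟨u, h1, h2, h3⟩ := mcshane n hfin.toFinset H (2 ^ (n - 2))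
      Nat.one_le_two_pow
      (fun v => by
        simp only [hH]
        split_ifs
        · exact le_rfl
        · exact le_max_left _ _)
      (fun v => by
        simp only [hH]
        split_ifs
        · norm_num
        · apply max_le zero_le_one
          have : 0 ≤ (d v p : ℝ) / r := by positivity
          linarith)
      (fun v hv => by
        rw [Set.Finite.mem_toFinset] at hv
        simp only [hH]
        split_ifs with h
        · rfl
        · apply max_eq_left
          have h4 : r ≤ d v p := by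
            by_contra hcon
            exact hv ⟨by omega, h⟩
          have h5 : (r : ℝ) ≤ d v p := by exact_mod_cast h4
          have h6 : 1 ≤ (d v p : ℝ) / r := by rw [le_div_iff₀ hr0]; linarith
          linarith)
      (fun v hv y hy => sep hy (hclose v hv) (by omega))
      (fun v hv => sep_root (hclose v hv) (by omega))
    refine ⟨u, h1, h2.mono (hr3 _ (by omega)), ?_⟩
    have hval : ∀ v, (if φ^[n] v = x then (1 : ℂ) else 0) + u (φ^[n] v) =
        ((max 0 (1 - (d v p : ℝ) / r) : ℝ) : ℂ) := by
      intro v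
      rw [h3]
      simp only [hH]
      by_cases hvp : v = p
      · rw [if_pos hvp, hvp, if_pos hp, d_self]
        simp
      · rw [if_neg hvp, if_neg, zero_add]
        intro h
        apply hvp
        apply φ_inj.iterate n
        rw [h, hp]
    simp only [hval]
    refine ⟨?_, fun v => ?_⟩
    · have h4 : r ≤ d o p := by
        rw [hpb]
        have h5 : d o (2 ^ b, [2]) = 1 + 2 ^ b := by
          have h6 : (0 : ℕ) ≠ 2 ^ b := (by positivity : (0 : ℕ) < 2 ^ b).ne
          unfold d
          simp only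
          rw [if_neg h6]
          simp
        rw [h5]
        have h7 : 2 ^ (b - 1) ≤ 2 ^ b := Nat.pow_le_pow_right (by norm_num) (by omega)
        omega
      have h5 : (r : ℝ) ≤ d o p := by exact_mod_cast h4
      have h6 : 1 ≤ (d o p : ℝ) / r := by rw [le_div_iff₀ hr0]; linarith
      have h8 : max 0 (1 - (d o p : ℝ) / r) = 0 := max_eq_left (by linarith)
      show ‖((max 0 (1 - (d o p : ℝ) / r) : ℝ) : ℂ)‖ ≤ ε
      rw [h8]
      simpa using hε.le
    · rw [← Complex.ofReal_sub, Complex.norm_real, Real.norm_eq_abs]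
      refine (max_lip _ _).trans ?_
      refine le_trans ?_ hr2
      have h4 := d_par v p
      have h5 : (d v p : ℝ) ≤ d (par v) p + 1 := by exact_mod_cast h4.1
      have h6 : (d (par v) p : ℝ) ≤ d v p + 1 := by exact_mod_cast h4.2
      have h7 : 1 - (d v p : ℝ) / r - (1 - (d (par v) p : ℝ) / r)
        = ((d (par v) p : ℝ) - d v p) / r := by ring
      rw [h7, abs_div, abs_of_pos hr0]
      apply div_le_div_of_nonneg_right _ hr0.le
      rw [abs_le]
      constructor <;> linarith

/-- A finite linear combination of a family depending on points. -/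
theorem combine (g : W → ℂ) (hg : (Function.support g).Finite) {ε : ℝ} (hε : 0 < ε)
    (B : ℕ → W → W → ℂ)
    (h : ∀ (x : W) (η : ℝ), 0 < η → ∃ N : ℕ, ∀ n, N ≤ n → ∃ u : W → ℂ,
      (Function.support u).Finite ∧ NB u η ∧ NB (fun v => B n x v + u (φ^[n] v)) η) :
    ∃ N : ℕ, ∀ n, N ≤ n → ∃ u : W → ℂ, (Function.support u).Finite ∧ NB u ε ∧
      NB (fun v => ∑ x ∈ hg.toFinset, g x * B n x v + u (φ^[n] v)) ε := by
  classical
  set s := hg.toFinset with hs
  set K : ℝ := ∑ v ∈ s, ‖g v‖ + 1 with hK
  have hK0 : 0 ≤ ∑ v ∈ s, ‖g v‖ := Finset.sum_nonneg fun _ _ => norm_nonneg _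
  have hK1 : 0 < K := by linarith
  have h' := fun x => h x (ε / K) (by positivity)
  choose M hM using h'
  refine ⟨s.sup M, fun n hn => ?_⟩
  have hmv : ∀ v ∈ s, M v ≤ n := fun v hv => (Finset.le_sup hv).trans hn
  have hM' : ∀ x : W, ∃ u : W → ℂ, x ∈ s → ((Function.support u).Finite ∧ NB u (ε / K) ∧
      NB (fun v => B n x v + u (φ^[n] v)) (ε / K)) := by
    intro x
    by_cases hx : x ∈ s
    · obtain ⟨u, hu⟩ := hM x n (hmv x hx)
      exact ⟨u, fun _ => hu⟩
    · exact ⟨0, fun h => absurd h hx⟩
  choose u hu using hM'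
  have hsum : ∑ v ∈ s, ‖g v‖ * (ε / K) ≤ ε := by
    rw [← Finset.sum_mul, mul_div_assoc', div_le_iff₀ hK1]
    nlinarith
  refine ⟨fun y => ∑ x ∈ s, g x * u x y, ?_, ?_, ?_⟩
  · apply Set.Finite.subset (s.finite_toSet.biUnion fun v hv => (hu v hv).1)
    intro x hx
    rw [Function.mem_support] at hx
    obtain ⟨v, hv, h⟩ := Finset.exists_ne_zero_of_sum_ne_zero hx
    rw [Set.mem_iUnion₂]
    exact ⟨v, hv, fun h0 => h (by rw [h0, mul_zero])⟩
  · refine (NB.sum s (f := fun x y => g x * u x y) (C := fun v => ‖g v‖ * (ε / K)) ?_).mono hsum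
    intro v hv
    exact (hu v hv).2.1.smul _
  · have h1 := NB.sum s
      (f := fun x v => g x * (B n x v + u x (φ^[n] v)))
      (C := fun v => ‖g v‖ * (ε / K)) (fun v hv => (hu v hv).2.2.smul _)
    have h2 := h1.mono hsum
    convert h2 using 2 with y
    simp only [mul_add, Finset.sum_add_distrib]

/-- Transitivity. -/
theorem transit (x g : W → ℂ) (hx : (Function.support x).Finite)
    (hg : (Function.support g).Finite) {ε : ℝ} (hε : 0 < ε) :
    ∃ n : ℕ, ∃ u : W → ℂ, (Function.support u).Finite ∧ NB u ε ∧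
      NB (fun v => x (φ^[n] v) + u (φ^[n] v) - g v) ε := by
  classical
  obtain ⟨N1, h1⟩ := combine x hx (half_pos hε) (fun n y v => if φ^[n] v = y then 1 else 0)
    (fun y η hη => kill_point y hη)
  obtain ⟨N2, h2⟩ := combine g hg (half_pos hε) (fun n y v => -(if v = y then 1 else 0))
    (fun y η hη => by
      obtain ⟨N, hN⟩ := preimage_point y hη
      refine ⟨N, fun n hn => ?_⟩
      obtain ⟨u, a1, a2, a3⟩ := hN n hn
      refine ⟨u, a1, a2, ?_⟩
      have : (fun v => -(if v = y then (1 : ℂ) else 0) + u (φ^[n] v)) = fun _ => 0 := by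
        funext v
        rw [a3]
        ring
      rw [this]
      exact NB.zero hη.le)
  obtain ⟨u1, a1, a2, a3⟩ := h1 (max N1 N2) (le_max_left _ _)
  obtain ⟨u2, b1, b2, b3⟩ := h2 (max N1 N2) (le_max_right _ _)
  refine ⟨max N1 N2, fun v => u1 v + u2 v, ?_, ?_, ?_⟩
  · exact (a1.union b1).subset (Function.support_add u1 u2)
  · exact (a2.add b2).mono (by linarith)
  · refine NB.mono ?_ (show ε / 2 + ε / 2 ≤ ε by linarith)
    convert a3.add b3 using 2 with v
    have e1 : ∑ y ∈ hx.toFinset, x y * (if φ^[max N1 N2] v = y then (1 : ℂ) else 0) =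
        x (φ^[max N1 N2] v) := by
      simp only [mul_ite, mul_one, mul_zero]
      rw [Finset.sum_ite_eq]
      split_ifs with h
      · rfl
      · rw [Set.Finite.mem_toFinset, Function.mem_support, not_not] at h
        exact h.symm
    have e2 : ∑ y ∈ hg.toFinset, g y * -(if v = y then (1 : ℂ) else 0) = - g v := by
      simp only [mul_neg, mul_ite, mul_one, mul_zero, Finset.sum_neg_distrib]
      rw [Finset.sum_ite_eq]
      split_ifs with h
      · rfl
      · rw [Set.Finite.mem_toFinset, Function.mem_support, not_not] at h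
        rw [h]
    rw [e1, e2]
    ring

/-! ### Density of rational finitely supported functions -/

theorem littleLip_dense {g : W → ℂ} (hg : LittleLip T g) {ε : ℝ} (hε : 0 < ε) :
    ∃ g' : W → ℂ, (Function.support g').Finite ∧ NB (fun v => g' v - g v) ε := by
  rw [littleLip_iff] at hg
  have hfin := hg (ε / 2) (by linarith)
  -- a height beyond which the gradient is small
  obtain ⟨N, hN⟩ : ∃ N : ℕ, ∀ v, N < ht v → ‖g v - g (par v)‖ ≤ ε / 2 := by
    obtain ⟨N, hN⟩ := (hfin.image ht).bddAbove
    refine ⟨N, fun v hv => ?_⟩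
    by_contra h
    push Not at h
    have := hN ⟨v, h.le, rfl⟩
    omega
  have hball : {v : W | ht v ≤ N}.Finite := ball_finite N
  obtain ⟨B, hB⟩ := (hball.image fun v => ‖g v‖).bddAbove
  have hB' : ∀ v, ht v ≤ N → ‖g v‖ ≤ B := fun v hv => hB ⟨v, hv, rfl⟩
  have hB0 : 0 ≤ B := (norm_nonneg _).trans (hB' o (Nat.zero_le _))
  -- the ancestor at height `N`
  set π : W → W := fun v => par^[ht v - N] v with hπ
  have hht : ∀ n v, n ≤ ht v → ht (par^[n] v) = ht v - n := by
    intro n
    induction n with
    | zero => intro v _; rfl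
    | succ n ih =>
      intro v hv
      have hv0 : v ≠ o := by
        rintro rfl
        simp [ht] at hv
      have h1 := ht_par v hv0
      rw [Function.iterate_succ_apply, ih (par v) (by omega)]
      omega
  have hπN : ∀ v, ht (π v) ≤ N := by
    intro v
    rw [hπ]
    simp only
    rw [hht _ v (Nat.sub_le _ _)]
    omega
  have hπpar : ∀ v, N < ht v → π (par v) = π v := by
    intro v hv
    have hv0 : v ≠ o := by
      rintro rfl
      simp [ht] at hv
    have h1 := ht_par v hv0
    simp only [hπ]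
    have h2 : ht v - N = (ht (par v) - N) + 1 := by omega
    rw [h2, Function.iterate_succ_apply]
  have hπid : ∀ v, ht v ≤ N → π v = v := by
    intro v hv
    simp only [hπ]
    have : ht v - N = 0 := by omega
    rw [this]
    rfl
  -- the cut-off
  set δ' : ℝ := ε / (2 * (B + 1)) with hδ
  have hδ0 : 0 < δ' := by positivity
  set χ : ℕ → ℝ := fun n => max 0 (1 - δ' * n) with hχ
  have hχ0 : χ 0 = 1 := by simp [hχ]
  have hχlip : ∀ n, |χ (n + 1) - χ n| ≤ δ' := by
    intro n
    simp only [hχ]
    refine (max_lip _ _).trans ?_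
    push_cast
    have : 1 - δ' * ((n : ℝ) + 1) - (1 - δ' * n) = -δ' := by ring
    rw [this, abs_neg, abs_of_pos hδ0]
  refine ⟨fun v => (χ (ht v - N) : ℂ) * g (π v), ?_, ?_, ?_⟩
  · obtain ⟨R, hR⟩ := exists_nat_gt (1 / δ')
    apply Set.Finite.subset (ball_finite (N + R))
    intro v h
    rw [Function.mem_support] at h
    have hlt : ht v - N < R := by
      by_contra hcon
      push Not at hcon
      apply h
      have h1 : χ (ht v - N) = 0 := by
        simp only [hχ]
        apply max_eq_left
        have h2 : (R : ℝ) ≤ ((ht v - N : ℕ) : ℝ) := by exact_mod_cast hcon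
        rw [div_lt_iff₀ hδ0] at hR
        nlinarith
      rw [h1]
      simp
    show ht v ≤ N + R
    omega
  · have h0 : ht o - N = 0 := by simp [ht]
    simp only
    rw [h0, hχ0, hπid o (Nat.zero_le _)]
    simp only [Complex.ofReal_one, one_mul, sub_self, norm_zero]
    exact hε.le
  · intro v
    simp only
    rcases Nat.lt_or_ge N (ht v) with hv | hv
    · have hv0 : v ≠ o := by
        rintro rfl
        simp [ht] at hv
      have h1 := ht_par v hv0
      rw [hπpar v hv]
      have h2 : ht v - N = (ht (par v) - N) + 1 := by omega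
      rw [h2]
      have e : (χ (ht (par v) - N + 1) : ℂ) * g (π v) - g v -
          ((χ (ht (par v) - N) : ℂ) * g (π v) - g (par v))
          = ((χ (ht (par v) - N + 1) - χ (ht (par v) - N) : ℝ) : ℂ) * g (π v)
            - (g v - g (par v)) := by push_cast; ring
      rw [e]
      refine (norm_sub_le _ _).trans ?_
      rw [norm_mul, Complex.norm_real, Real.norm_eq_abs]
      have h3 := hχlip (ht (par v) - N)
      have h4 := hB' _ (hπN v)
      have h5 := hN v hv
      have h6 : |χ (ht (par v) - N + 1) - χ (ht (par v) - N)| * ‖g (π v)‖ ≤ δ' * B :=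
        mul_le_mul h3 h4 (norm_nonneg _) hδ0.le
      have h7 : δ' * B ≤ ε / 2 := by
        rw [hδ, div_mul_eq_mul_div, div_le_iff₀ (by positivity)]
        nlinarith
      linarith
    · have hv2 : ht (par v) ≤ N := (ht_par_le v).trans hv
      have h1 : ht v - N = 0 := by omega
      have h2 : ht (par v) - N = 0 := by omega
      rw [h1, h2, hχ0, hπid v hv, hπid (par v) hv2]
      simp only [Complex.ofReal_one, one_mul, sub_self, norm_zero]
      exact hε.le

/-- Complex numbers with rational coordinates. -/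
noncomputable def toC (q : ℚ × ℚ) : ℂ := ⟨(q.1 : ℝ), (q.2 : ℝ)⟩

theorem toC_zero : toC 0 = 0 := by
  apply Complex.ext <;> simp [toC]

theorem exists_toC (z : ℂ) {ε : ℝ} (hε : 0 < ε) : ∃ q : ℚ × ℚ, ‖toC q - z‖ ≤ ε := by
  obtain ⟨a, ha⟩ := exists_rat_near z.re (show (0 : ℝ) < ε / 2 by linarith)
  obtain ⟨b, hb⟩ := exists_rat_near z.im (show (0 : ℝ) < ε / 2 by linarith)
  refine ⟨(a, b), ?_⟩
  refine (Complex.norm_le_abs_re_add_abs_im _).trans ?_
  simp only [toC, Complex.sub_re, Complex.sub_im]
  rw [abs_sub_comm] at ha hb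
  linarith

theorem rational_dense {g : W → ℂ} (hg : LittleLip T g) {ε : ℝ} (hε : 0 < ε) :
    ∃ r : W →₀ (ℚ × ℚ), NB (fun v => toC (r v) - g v) ε := by
  classical
  obtain ⟨g', hfin, hg'⟩ := littleLip_dense hg (half_pos hε)
  choose q hq using fun v : W => exists_toC (g' v) (show (0 : ℝ) < ε / 4 by linarith)
  refine ⟨Finsupp.onFinset hfin.toFinset (fun v => if v ∈ hfin.toFinset then q v else 0) ?_, ?_⟩
  · intro v hv
    by_contra h
    rw [if_neg h] at hv
    exact hv rfl
  · have h1 : NB (fun v => toC (Finsupp.onFinset hfin.toFinset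
        (fun v => if v ∈ hfin.toFinset then q v else 0) (by
          intro v hv
          by_contra h
          rw [if_neg h] at hv
          exact hv rfl) v) - g' v) (2 * (ε / 4)) := by
      apply NB.of_bound
      intro v
      rw [Finsupp.onFinset_apply]
      by_cases h : v ∈ hfin.toFinset
      · rw [if_pos h]; exact hq v
      · rw [if_neg h, toC_zero]
        rw [Set.Finite.mem_toFinset, Function.mem_support, not_not] at h
        rw [h, sub_zero, norm_zero]
        linarith
    have h2 := h1.add hg'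
    refine (NB.mono ?_ (show 2 * (ε / 4) + ε / 2 ≤ ε by linarith))
    convert h2 using 2 with v
    ring

/-! ### The hypercyclic vector -/

/-- One step of the construction. -/
theorem stage (g : W → ℂ) (hg : (Function.support g).Finite) (S : ℕ × (W → ℂ))
    (hS : (Function.support S.2).Finite) {ε : ℝ} (hε : 0 < ε) :
    ∃ p : ℕ × (W → ℂ), (Function.support p.2).Finite ∧ NB p.2 ε ∧
      NB (fun v => S.2 (φ^[p.1] v) + p.2 (φ^[p.1] v) - g v) ε ∧
      ∀ m, m ≤ S.1 → NB (fun v => p.2 (φ^[m] v)) ε := by
  have hδ : 0 < ε / 3 ^ S.1 := by positivity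
  have hδε : ε / 3 ^ S.1 ≤ ε := div_le_self hε.le (one_le_pow₀ (by norm_num))
  obtain ⟨n, u, h1, h2, h3⟩ := transit S.2 g hS hg hδ
  refine ⟨(n, u), h1, h2.mono hδε, h3.mono hδε, fun m hm => ?_⟩
  refine (h2.comp_φ_iter m).mono ?_
  have h4 : (3 : ℝ) ^ m ≤ 3 ^ S.1 := pow_le_pow_right₀ (by norm_num) hm
  rw [mul_div_assoc', div_le_iff₀ (by positivity), mul_comm]
  exact mul_le_mul_of_nonneg_left h4 hε.le

/-- The states of the construction. -/
abbrev State := {S : ℕ × (W → ℂ) // (Function.support S.2).Finite}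

theorem exists_seq (g : ℕ → W → ℂ) (hg : ∀ k, (Function.support (g k)).Finite) :
    ∃ p : ℕ → ℕ × (W → ℂ), (∀ k, (Function.support (p k).2).Finite) ∧
      (∀ k, NB (p k).2 ((1 / 4) ^ k)) ∧
      (∀ k, NB (fun v => ∑ i ∈ Finset.range (k + 1), (p i).2 (φ^[(p k).1] v) - g k v)
        ((1 / 4) ^ k)) ∧
      (∀ i k, i < k → NB (fun v => (p k).2 (φ^[(p i).1] v)) ((1 / 4) ^ k)) := by
  classical
  have key := fun (k : ℕ) (S : State) =>
    stage (g k) (hg k) S.1 S.2 (show (0 : ℝ) < (1 / 4) ^ k by positivity)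
  choose pick h1 h2 h3 h4 using key
  let next : ℕ → State → State := fun k S => ⟨(max S.1.1 (pick k S).1,
    fun v => S.1.2 v + (pick k S).2 v),
    (S.2.union (h1 k S)).subset (Function.support_add S.1.2 (pick k S).2)⟩
  let St : ℕ → State := fun k => Nat.rec ⟨(0, fun _ => 0), by
    rw [Function.support_fun_zero]; exact Set.finite_empty⟩ next k
  have hSt : ∀ k, St (k + 1) = next k (St k) := fun k => rfl
  have hsum : ∀ k, (St k).1.2 = fun v => ∑ i ∈ Finset.range k, (pick i (St i)).2 v := by
    intro k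
    induction k with
    | zero =>
      funext v
      simp [St]
    | succ k ih =>
      rw [hSt]
      funext v
      show (St k).1.2 v + (pick k (St k)).2 v = _
      rw [ih, Finset.sum_range_succ]
  have hle : ∀ i k, i < k → (pick i (St i)).1 ≤ (St k).1.1 := by
    intro i k hik
    induction k with
    | zero => omega
    | succ k ih =>
      rw [hSt]
      show _ ≤ max (St k).1.1 (pick k (St k)).1
      rcases Nat.lt_succ_iff_lt_or_eq.1 hik with h | h
      · exact (ih h).trans (le_max_left _ _)
      · rw [h]; exact le_max_right _ _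
  refine ⟨fun k => pick k (St k), fun k => h1 _ _, fun k => h2 _ _, ?_, ?_⟩
  · intro k
    have h5 := h3 k (St k)
    rw [hsum k] at h5
    convert h5 using 2 with v
    rw [Finset.sum_range_succ]
  · intro i k hik
    exact h4 k (St k) _ (hle i k hik)

theorem NB.tsum_geom {f : ℕ → W → ℂ} (k : ℕ) (hf : ∀ i, NB (f i) ((1 / 2) ^ k * (1 / 2) ^ i)) :
    NB (fun v => ∑' i, f i v) (2 * (1 / 2) ^ k) := by
  have h := NB.tsum (summable_geometric_two.mul_left ((1 / 2 : ℝ) ^ k)) hf
  rw [tsum_mul_left, tsum_geometric_two, mul_comm] at h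
  exact h

theorem quarter_le {i k n : ℕ} (h1 : i ≤ n) (h2 : k ≤ n) :
    (1 / 4 : ℝ) ^ n ≤ (1 / 2) ^ k * (1 / 2) ^ i := by
  have : (1 / 4 : ℝ) ^ n = (1 / 2) ^ n * (1 / 2) ^ n := by
    rw [← mul_pow]; norm_num
  rw [this]
  exact mul_le_mul (pow_le_pow_of_le_one (by norm_num) (by norm_num) h2)
    (pow_le_pow_of_le_one (by norm_num) (by norm_num) h1) (by positivity) (by positivity)

theorem littleLip_of_approx {f : W → ℂ} (h : ∀ ε : ℝ, 0 < ε → ∃ f' : W → ℂ,
    (Function.support f').Finite ∧ NB (fun v => f v - f' v) ε) : LittleLip T f := by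
  rw [littleLip_iff]
  intro ε hε
  obtain ⟨f', h1, h2⟩ := h (ε / 2) (by linarith)
  apply Set.Finite.subset (h1.union (par_finite _ h1))
  intro v hv
  have hv : ε ≤ ‖f v - f (par v)‖ := hv
  by_contra hcon
  rw [Set.mem_union, not_or, Set.mem_preimage, Function.mem_support, Function.mem_support,
    not_not, not_not] at hcon
  have h3 : ‖(f v - f' v) - (f (par v) - f' (par v))‖ ≤ ε / 2 := h2.2 v
  rw [hcon.1, hcon.2, sub_zero, sub_zero] at h3
  linarith

theorem hypercyclic : Hypercyclic T φ 1 := by
  classical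
  obtain ⟨e, he⟩ := exists_surjective_nat (W →₀ (ℚ × ℚ))
  set g : ℕ → W → ℂ := fun k v => toC (e (Nat.unpair k).1 v) with hg
  have hgfin : ∀ k, (Function.support (g k)).Finite := by
    intro k
    apply Set.Finite.subset (e (Nat.unpair k).1).support.finite_toSet
    intro v hv
    rw [Finset.mem_coe, Finsupp.mem_support_iff]
    intro h0
    apply hv
    simp only [hg]
    rw [h0, toC_zero]
  obtain ⟨p, h1, h2, h3, h4⟩ := exists_seq g hgfin
  set u : ℕ → W → ℂ := fun i => (p i).2 with hu
  have hsum : ∀ v, Summable fun i => u i v := by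
    intro v
    have hc : Summable fun i : ℕ => (1 / 4 : ℝ) ^ i :=
      summable_geometric_of_lt_one (by norm_num) (by norm_num)
    apply Summable.of_norm_bounded (g := fun i => ((ht v : ℝ) + 1) * (1 / 4) ^ i) (hc.mul_left _)
    intro i
    exact (h2 i).pointwise _ v rfl
  -- splitting the series
  have hsplit : ∀ k v, ∑' i, u i v = ∑ i ∈ Finset.range k, u i v + ∑' i, u (i + k) v :=
    fun k v => ((hsum v).sum_add_tsum_nat_add k).symm
  refine ⟨fun v => ∑' i, u i v, ?_, ?_⟩
  · -- membership
    apply littleLip_of_approx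
    intro ε hε
    obtain ⟨N, hN⟩ := exists_pow_lt_of_lt_one
      (show (0 : ℝ) < ε / 2 by positivity) (show (1 / 2 : ℝ) < 1 by norm_num)
    refine ⟨fun v => ∑ i ∈ Finset.range N, u i v, ?_, ?_⟩
    · apply Set.Finite.subset ((Finset.range N).finite_toSet.biUnion fun i _ => h1 i)
      intro v hv
      obtain ⟨i, hi, h⟩ := Finset.exists_ne_zero_of_sum_ne_zero hv
      rw [Set.mem_iUnion₂]
      exact ⟨i, hi, h⟩
    · have h6 : NB (fun v => ∑' i, u (i + N) v) (2 * (1 / 2) ^ N) := by
        apply NB.tsum_geom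
        intro i
        exact (h2 (i + N)).mono (quarter_le (by omega) (by omega))
      refine NB.mono ?_ (show 2 * (1 / 2) ^ N ≤ ε by linarith)
      convert h6 using 2 with v
      rw [hsplit N v]
      ring
  · -- density
    intro G hG ε hε
    obtain ⟨r, hr⟩ := rational_dense hG (show (0 : ℝ) < ε / 4 by linarith)
    obtain ⟨a, ha⟩ := he r
    obtain ⟨N, hN⟩ := exists_pow_lt_of_lt_one
      (show (0 : ℝ) < ε / 8 by positivity) (show (1 / 2 : ℝ) < 1 by norm_num)
    set k := Nat.pair a N with hk
    have hkN : N ≤ k := Nat.right_le_pair a N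
    have hgk : g k = fun v => toC (r v) := by
      simp only [hg, hk]
      rw [Nat.unpair_pair, ha]
    have hsmall : (1 / 2 : ℝ) ^ k ≤ (1 / 2) ^ N :=
      pow_le_pow_of_le_one (by norm_num) (by norm_num) hkN
    have h5 : NB (fun v => ∑' i, u (i + (k + 1)) (φ^[(p k).1] v)) (2 * (1 / 2) ^ k) := by
      apply NB.tsum_geom (f := fun i v => u (i + (k + 1)) (φ^[(p k).1] v))
      intro i
      exact (h4 k (i + (k + 1)) (by omega)).mono (quarter_le (by omega) (by omega))
    have h6 := (h3 k).add h5
    have hquart : (1 / 4 : ℝ) ^ k ≤ (1 / 2) ^ k :=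
      pow_le_pow_left₀ (by norm_num) (by norm_num) k
    refine ⟨(p k).1, ?_⟩
    rw [hgk] at h6
    have h8 := (h6.add hr).lipNorm_le
    refine lt_of_le_of_lt (le_trans (le_of_eq ?_) h8) (by linarith)
    congr 1
    funext v
    have hs := hsplit (k + 1) (φ^[(p k).1] v)
    simp only [one_pow, one_mul]
    rw [hs]
    simp only [hu]
    ring

/-- **Main theorem.** There are a rooted tree, a composition operator `C_φ` on its little
Lipschitz space and `|lam| ≥ 1` with `lam C_φ` hypercyclic, and a vertex whose backward orbit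
is infinite. -/
theorem result : ∃ (V : Type) (T : RootedTree V) (φ : V → V) (lam : ℂ), 1 ≤ ‖lam‖ ∧
    IsCompositionOperator T φ ∧ Hypercyclic T φ lam ∧
    ∃ v, {n : ℕ | 1 ≤ n ∧ ∃ w, φ^[n] w = v}.Infinite := by
  refine ⟨W, T, φ, 1, by simp, compositionOperator, hypercyclic, (2 ^ 0, [2]), ?_⟩
  apply Set.infinite_of_not_bddAbove
  rintro ⟨N, hN⟩
  have h : N + 1 ≤ N := hN ⟨by omega, (2 ^ (N + 1), [2]), by
    rw [φ_iter_special (N + 1) (N + 1) le_rfl, Nat.sub_self]⟩
  omega

end Pool.Agent.Results.MP_349e68_an.BackwardOrbit
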